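import Pool.Agent.helper1.SF.SpecA

set_option autoImplicit false

namespace SF

open MeasureTheory Set
open scoped ContDiff

theorem MMT_deriv_zero (g : ℝ → ℝ) (hs : ContDiff ℝ ∞ g) (lo : ∀ a, a ≤ 1 → g a = 0)
    (hi : ∀ a, 2 ≤ a → g a = 0) : (∀ a, a ≤ 1 → deriv g a = 0) ∧ (∀ a, 2 ≤ a → deriv g a = 0) := by
  have hd : Differentiable ℝ g := hs.differentiable (by simp)
  constructor
  · intro a ha
    have h1 : HasDerivWithinAt g (deriv g a) (Iic a) a := (hd a).hasDerivAt.hasDerivWithinAt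
    have h2 : HasDerivWithinAt g 0 (Iic a) a := by
      refine (hasDerivWithinAt_const a (Iic a) (0 : ℝ)).congr (fun x hx => ?_) ?_
      · exact lo x (le_trans hx ha)
      · exact lo a ha
    exact (uniqueDiffWithinAt_Iic a).eq_deriv _ h1 h2
  · intro a ha
    have h1 : HasDerivWithinAt g (deriv g a) (Ici a) a := (hd a).hasDerivAt.hasDerivWithinAt
    have h2 : HasDerivWithinAt g 0 (Ici a) a := by
      refine (hasDerivWithinAt_const a (Ici a) (0 : ℝ)).congr (fun x hx => ?_) ?_
      · exact hi x (le_trans ha hx)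
      · exact hi a ha
    exact (uniqueDiffWithinAt_Ici a).eq_deriv _ h1 h2

theorem MMT_image (A : ℝ) (hA : 0 < A) : (fun τ : ℝ => A * (1 + τ ^ 2)) '' (Ioi 0) = Ioi A := by
  ext x
  constructor
  · rintro ⟨τ, hτ, rfl⟩
    have : 0 < τ := hτ
    show A < A * (1 + τ ^ 2)
    nlinarith [mul_pos hA (pow_pos this 2)]
  · intro hx
    have hx' : A < x := hx
    refine ⟨√(x / A - 1), ?_, ?_⟩
    · show 0 < √(x / A - 1)
      apply Real.sqrt_pos.mpr
      have : 1 < x / A := by rwa [lt_div_iff₀ hA, one_mul]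
      linarith
    · have h1 : 0 ≤ x / A - 1 := by
        have : 1 < x / A := by rwa [lt_div_iff₀ hA, one_mul]
        linarith
      simp only
      rw [Real.sq_sqrt h1]
      field_simp
      ring

theorem MMT_main (g' : ℝ → ℝ) (hc : Continuous g') (lo : ∀ a, a ≤ 1 → g' a = 0)
    (hi : ∀ a, 2 ≤ a → g' a = 0) (A : ℝ) (hA : 0 < A) :
    IntegrableOn (fun τ => g' (A * (1 + τ ^ 2))) (Ioi 0) ∧
    Integrable (fun σ => |g' σ| / √(σ - A)) ∧
    ∫ σ, |g' σ| / √(σ - A) = 2 * (√A * ∫ τ in Ioi (0 : ℝ), |g' (A * (1 + τ ^ 2))|) := by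
  have hcs : HasCompactSupport (fun τ : ℝ => g' (A * (1 + τ ^ 2))) := by
    refine HasCompactSupport.intro (isCompact_Icc (a := -(√(2 / A))) (b := √(2 / A))) (fun τ hτ => ?_)
    apply hi
    by_contra hlt
    rw [not_le] at hlt
    apply hτ
    have h2 : τ ^ 2 ≤ 2 / A := by
      rw [le_div_iff₀ hA]
      nlinarith
    have := Real.abs_le_sqrt h2
    exact abs_le.mp this
  have hcont : Continuous (fun τ : ℝ => g' (A * (1 + τ ^ 2))) := by fun_prop
  have hint : Integrable (fun τ : ℝ => g' (A * (1 + τ ^ 2))) := hcont.integrable_of_hasCompactSupport hcs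
  have hder : ∀ x ∈ Ioi (0 : ℝ), HasDerivWithinAt (fun τ : ℝ => A * (1 + τ ^ 2)) (2 * A * x) (Ioi 0) x := by
    intro x _
    have h : HasDerivAt (fun τ : ℝ => A * (1 + τ ^ 2)) (2 * A * x) x := by
      have := ((hasDerivAt_pow 2 x).const_add 1).const_mul A
      simpa [mul_comm, mul_left_comm, mul_assoc] using this
    exact h.hasDerivWithinAt
  have hinj : InjOn (fun τ : ℝ => A * (1 + τ ^ 2)) (Ioi 0) := by
    intro x hx y hy hxy
    simp only at hxy
    have hx' : 0 < x := hx
    have hy' : 0 < y := hy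
    have h1 : x ^ 2 = y ^ 2 := by
      have := mul_left_cancel₀ hA.ne' hxy
      linarith
    exact (pow_left_inj₀ hx'.le hy'.le (by norm_num)).mp h1
  have hpt : ∀ x ∈ Ioi (0 : ℝ), |2 * A * x| • (|g' (A * (1 + x ^ 2))| / √(A * (1 + x ^ 2) - A)) =
      2 * √A * |g' (A * (1 + x ^ 2))| := by
    intro x hx
    have hx' : 0 < x := hx
    have h1 : A * (1 + x ^ 2) - A = A * x ^ 2 := by ring
    have h2 : √(A * x ^ 2) = √A * x := by
      rw [Real.sqrt_mul hA.le, Real.sqrt_sq hx'.le]
    rw [h1, h2, abs_of_pos (by positivity), smul_eq_mul]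
    have hs : √A ≠ 0 := (Real.sqrt_pos.mpr hA).ne'
    have hA2 : A = √A * √A := (Real.mul_self_sqrt hA.le).symm
    field_simp
    rw [Real.sq_sqrt hA.le]
    ring
  have hoff : ∀ σ, σ ∉ Ioi A → |g' σ| / √(σ - A) = 0 := by
    intro σ hσ
    have : σ ≤ A := not_lt.mp hσ
    rw [Real.sqrt_eq_zero_of_nonpos (by linarith), div_zero]
  have hI : IntegrableOn (fun σ => |g' σ| / √(σ - A)) (Ioi A) := by
    rw [← MMT_image A hA]
    rw [integrableOn_image_iff_integrableOn_abs_deriv_smul measurableSet_Ioi hder hinj]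
    have : IntegrableOn (fun x : ℝ => 2 * √A * |g' (A * (1 + x ^ 2))|) (Ioi 0) :=
      (hint.abs.const_mul _).integrableOn
    exact this.congr_fun (fun x hx => (hpt x hx).symm) measurableSet_Ioi
  refine ⟨hint.integrableOn, ?_, ?_⟩
  · exact (integrableOn_iff_integrable_of_support_subset (fun σ hσ => by
      by_contra h
      exact hσ (hoff σ h))).mp hI
  · rw [← setIntegral_eq_integral_of_forall_compl_eq_zero (s := Ioi A) hoff]
    rw [← MMT_image A hA]
    rw [integral_image_eq_integral_abs_deriv_smul measurableSet_Ioi hder hinj]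
    rw [setIntegral_congr_fun measurableSet_Ioi hpt]
    rw [integral_const_mul]
    ring

theorem MMT : MMT_stmt := by
  intro g hg A hA
  obtain ⟨hP, hi⟩ := hg
  obtain ⟨z1, z2⟩ := MMT_deriv_zero g hP.smooth hP.lo hi
  have hc : Continuous (deriv g) := hP.smooth.continuous_deriv (by simp)
  obtain ⟨h1, h2, h3⟩ := MMT_main (deriv g) hc z1 z2 A hA
  have hoff : ∀ σ, σ ∉ Ioc (1 : ℝ) 2 → |deriv g σ| / √(σ - A) = 0 := by
    intro σ hσ
    have : deriv g σ = 0 := by
      by_cases h : σ ≤ 1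
      · exact z1 σ h
      · apply z2
        by_contra h'
        exact hσ ⟨not_le.mp h, (not_le.mp h').le⟩
    rw [this, abs_zero, zero_div]
  have hMM : MM g A = ∫ σ, |deriv g σ| / √(σ - A) := by
    unfold MM
    rw [intervalIntegral.integral_of_le (by norm_num)]
    exact setIntegral_eq_integral_of_forall_compl_eq_zero hoff
  refine ⟨h1, ?_, ?_, ?_, ?_⟩
  · rw [intervalIntegrable_iff_integrableOn_Ioc_of_le (by norm_num)]
    exact h2.integrableOn
  · rw [hMM]
    exact integral_nonneg (fun σ => by positivity)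
  · intro h2A
    have hz : ∀ σ, |deriv g σ| / √(σ - A) = 0 := by
      intro σ
      by_cases h : 2 ≤ σ
      · rw [z2 σ h, abs_zero, zero_div]
      · rw [Real.sqrt_eq_zero_of_nonpos (by linarith), div_zero]
    rw [hMM]
    simp [hz]
  · rw [hMM, h3]
    ring

end SF
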