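import Pool.Agent.helper1.SF.SpecA

set_option autoImplicit false

namespace SF

open MeasureTheory Set
open scoped ContDiff

theorem MSB_prof (hA : PKA_stmt) (ka K : ℕ) : Prof (gs ka K) := by
  have hp : ∀ k, Prof (pk k) := fun k => (hA.2.2 k).1
  refine ⟨?_, ?_, ?_⟩
  · unfold gs
    exact ContDiff.sum (fun k _ => (hp k).smooth)
  · intro a ha
    unfold gs
    exact Finset.sum_eq_zero (fun k _ => (hp k).lo a ha)
  · intro a ha
    unfold gs
    exact Finset.sum_eq_zero (fun k _ => (hp k).hi a ha)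

/-- the primitive of the bound -/
noncomputable def MSB_F (N ρ : ℝ) : ℝ := (1 + N * (1 - ρ ^ 2)) ^ (-(1 / 2) : ℝ)

theorem MSB_F_deriv (N ρ : ℝ) (hN : 0 ≤ N) (h0 : 0 ≤ ρ) (h1 : ρ ≤ 1) :
    HasDerivAt (MSB_F N) (N * ρ * (1 + N * (1 - ρ ^ 2)) ^ (-(3 / 2) : ℝ)) ρ := by
  have hpos : 0 < 1 + N * (1 - ρ ^ 2) := by
    have : 0 ≤ 1 - ρ ^ 2 := by nlinarith
    nlinarith [mul_nonneg hN this]
  have hi : HasDerivAt (fun x : ℝ => 1 + N * (1 - x ^ 2)) (-(2 * N * ρ)) ρ := by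
    have := (((hasDerivAt_pow 2 ρ).const_sub 1).const_mul N).const_add 1
    refine this.congr_deriv ?_
    push_cast
    ring
  have := hi.rpow_const (p := (-(1 / 2) : ℝ)) (Or.inl hpos.ne')
  unfold MSB_F
  convert this using 1
  have : (-(1 / 2) : ℝ) - 1 = -(3 / 2) := by norm_num
  rw [this]
  ring

theorem MSB_th (C σ D : ℝ) (hC : 0 < C) (hσ : 0 < σ) (h1 : |D| ≤ C) (h2 : |D| ≤ C / (σ * √σ)) :
    |D| ≤ 4 * C * (1 + σ) ^ (-(3 / 2) : ℝ) := by
  have hp : 0 < 1 + σ := by linarith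
  have he : (1 + σ) ^ (-(3 / 2) : ℝ) = 1 / ((1 + σ) * √(1 + σ)) := by
    rw [Real.rpow_neg hp.le, one_div]
    congr 1
    have : (3 / 2 : ℝ) = 1 + 1 / 2 := by norm_num
    rw [this, Real.rpow_add hp, Real.rpow_one, ← Real.sqrt_eq_rpow]
  rw [he]
  by_cases h : σ ≤ 1
  · refine le_trans h1 ?_
    rw [mul_one_div, le_div_iff₀ (by positivity)]
    have hs : √(1 + σ) ≤ 2 := by
      rw [Real.sqrt_le_left (by norm_num)]
      linarith
    have h3 : (1 + σ) * √(1 + σ) ≤ 2 * 2 := by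
      apply mul_le_mul <;> first | linarith | positivity
    nlinarith
  · have h' : 1 < σ := not_le.mp h
    refine le_trans h2 ?_
    rw [mul_one_div, div_le_div_iff₀ (by positivity) (by positivity)]
    have hs : √(1 + σ) ≤ 2 * √σ := by
      rw [Real.sqrt_le_left (by positivity), mul_pow, Real.sq_sqrt hσ.le]
      linarith
    have h3 : (1 + σ) * √(1 + σ) ≤ (2 * σ) * (2 * √σ) := by
      apply mul_le_mul <;> first | linarith | positivity
    nlinarith [mul_le_mul_of_nonneg_left h3 hC.le]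

theorem MSB_main (C : ℝ) (hC : 0 < C)
    (hTh : ∀ σ : ℝ, 0 < σ → DifferentiableAt ℝ Th σ ∧ |Th σ| ≤ C ∧
      |deriv Th σ| ≤ C ∧ |deriv Th σ| ≤ C / (σ * √σ))
    (f : ℝ → ℝ) (hf : ContDiff ℝ ∞ f) (a b : ℝ) (ha : 0 < a) (hb : 0 < b)
    (hfe : ∀ ρ, 0 < ρ → ρ < 1 → f ρ = -ρ * (Th (a * (1 - ρ ^ 2)) - Th (b * (1 - ρ ^ 2)))) :
    ∫ ρ in (0 : ℝ)..1, ρ * |deriv f ρ| ≤ 18 * C := by
  have hbd : ∀ ρ ∈ Ioo (0 : ℝ) 1, ρ * |deriv f ρ| ≤
      2 * C + 8 * C * (a * ρ * (1 + a * (1 - ρ ^ 2)) ^ (-(3 / 2) : ℝ)) +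
        8 * C * (b * ρ * (1 + b * (1 - ρ ^ 2)) ^ (-(3 / 2) : ℝ)) := by
    intro ρ hρ
    obtain ⟨h0, h1⟩ := hρ
    have hq : 0 < 1 - ρ ^ 2 := by nlinarith
    have hEq : f =ᶠ[nhds ρ] fun ρ => -ρ * (Th (a * (1 - ρ ^ 2)) - Th (b * (1 - ρ ^ 2))) := by
      filter_upwards [Ioo_mem_nhds h0 h1] with x hx using hfe x hx.1 hx.2
    have hin : ∀ N : ℝ, HasDerivAt (fun x : ℝ => N * (1 - x ^ 2)) (-(2 * N * ρ)) ρ := by
      intro N
      have := ((hasDerivAt_pow 2 ρ).const_sub 1).const_mul N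
      refine this.congr_deriv ?_
      push_cast
      ring
    obtain ⟨da, ba, b1a, b2a⟩ := hTh (a * (1 - ρ ^ 2)) (by positivity)
    obtain ⟨db, bb, b1b, b2b⟩ := hTh (b * (1 - ρ ^ 2)) (by positivity)
    have hda : HasDerivAt (fun x : ℝ => Th (a * (1 - x ^ 2)))
        (deriv Th (a * (1 - ρ ^ 2)) * -(2 * a * ρ)) ρ :=
      HasDerivAt.comp ρ (h₂ := Th) da.hasDerivAt (hin a)
    have hdb : HasDerivAt (fun x : ℝ => Th (b * (1 - x ^ 2)))
        (deriv Th (b * (1 - ρ ^ 2)) * -(2 * b * ρ)) ρ :=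
      HasDerivAt.comp ρ (h₂ := Th) db.hasDerivAt (hin b)
    have hd := ((hasDerivAt_id ρ).neg.mul (hda.sub hdb))
    have hD : deriv f ρ = -(Th (a * (1 - ρ ^ 2)) - Th (b * (1 - ρ ^ 2))) +
        2 * a * ρ ^ 2 * deriv Th (a * (1 - ρ ^ 2)) - 2 * b * ρ ^ 2 * deriv Th (b * (1 - ρ ^ 2)) := by
      rw [hEq.deriv_eq]
      have h5 : deriv (fun ρ => -ρ * (Th (a * (1 - ρ ^ 2)) - Th (b * (1 - ρ ^ 2)))) ρ = _ := hd.deriv
      rw [h5]
      simp
      ring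
    have t1 := MSB_th C _ _ hC (by positivity) b1a b2a
    have t2 := MSB_th C _ _ hC (by positivity) b1b b2b
    set X := |deriv Th (a * (1 - ρ ^ 2))| with hX
    set Y := |deriv Th (b * (1 - ρ ^ 2))| with hY
    have hX0 : 0 ≤ X := abs_nonneg _
    have hY0 : 0 ≤ Y := abs_nonneg _
    have h6 : |deriv f ρ| ≤ 2 * C + 2 * a * ρ ^ 2 * X + 2 * b * ρ ^ 2 * Y := by
      rw [hD]
      have e1 : |2 * a * ρ ^ 2 * deriv Th (a * (1 - ρ ^ 2))| = 2 * a * ρ ^ 2 * X := by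
        rw [abs_mul, abs_of_pos (by positivity)]
      have e2 : |2 * b * ρ ^ 2 * deriv Th (b * (1 - ρ ^ 2))| = 2 * b * ρ ^ 2 * Y := by
        rw [abs_mul, abs_of_pos (by positivity)]
      rw [abs_le] at ba bb
      rw [← e1, ← e2, abs_le]
      have a1 := abs_le.mp (le_refl |2 * a * ρ ^ 2 * deriv Th (a * (1 - ρ ^ 2))|)
      have a2 := abs_le.mp (le_refl |2 * b * ρ ^ 2 * deriv Th (b * (1 - ρ ^ 2))|)
      constructor <;> linarith [a1.1, a1.2, a2.1, a2.2, ba.1, ba.2, bb.1, bb.2]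
    have h7 : ρ * |deriv f ρ| ≤ 2 * C + 2 * a * ρ * X + 2 * b * ρ * Y := by
      have h8 : ρ * |deriv f ρ| ≤ ρ * (2 * C + 2 * a * ρ ^ 2 * X + 2 * b * ρ ^ 2 * Y) :=
        mul_le_mul_of_nonneg_left h6 h0.le
      have r3 : ρ ^ 3 ≤ ρ := by nlinarith [mul_pos h0 hq]
      have h9 : ρ * (2 * C) ≤ 2 * C := by nlinarith
      have h10 : ρ ^ 3 * (2 * a * X) ≤ ρ * (2 * a * X) := mul_le_mul_of_nonneg_right r3 (by positivity)
      have h11 : ρ ^ 3 * (2 * b * Y) ≤ ρ * (2 * b * Y) := mul_le_mul_of_nonneg_right r3 (by positivity)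
      nlinarith
    have h12 : 2 * a * ρ * X ≤ 2 * a * ρ * (4 * C * (1 + a * (1 - ρ ^ 2)) ^ (-(3 / 2) : ℝ)) :=
      mul_le_mul_of_nonneg_left t1 (by positivity)
    have h13 : 2 * b * ρ * Y ≤ 2 * b * ρ * (4 * C * (1 + b * (1 - ρ ^ 2)) ^ (-(3 / 2) : ℝ)) :=
      mul_le_mul_of_nonneg_left t2 (by positivity)
    linarith
  have hcf : Continuous (deriv f) := hf.continuous_deriv (by simp)
  have hFc : ∀ N : ℝ, 0 < N → ContinuousOn
      (fun ρ : ℝ => N * ρ * (1 + N * (1 - ρ ^ 2)) ^ (-(3 / 2) : ℝ)) (Icc 0 1) := by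
    intro N hN
    apply ContinuousOn.mul (by fun_prop)
    apply ContinuousOn.rpow_const (by fun_prop)
    intro x hx
    left
    have : 0 ≤ 1 - x ^ 2 := by nlinarith [hx.1, hx.2]
    have := mul_nonneg hN.le this
    positivity
  have hFi : ∀ N : ℝ, 0 < N → IntervalIntegrable
      (fun ρ : ℝ => N * ρ * (1 + N * (1 - ρ ^ 2)) ^ (-(3 / 2) : ℝ)) volume 0 1 := by
    intro N hN
    apply ContinuousOn.intervalIntegrable
    rw [uIcc_of_le (by norm_num)]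
    exact hFc N hN
  have hFv : ∀ N : ℝ, 0 < N → ∫ ρ in (0 : ℝ)..1, N * ρ * (1 + N * (1 - ρ ^ 2)) ^ (-(3 / 2) : ℝ) ≤ 1 := by
    intro N hN
    rw [intervalIntegral.integral_eq_sub_of_hasDerivAt (f := MSB_F N)
      (fun x hx => by
        rw [uIcc_of_le (by norm_num)] at hx
        exact MSB_F_deriv N x hN.le hx.1 hx.2) (hFi N hN)]
    have e1 : MSB_F N 1 = 1 := by simp [MSB_F]
    have e0 : 0 ≤ MSB_F N 0 := by
      unfold MSB_F
      positivity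
    linarith
  have hmono : ∫ ρ in (0 : ℝ)..1, ρ * |deriv f ρ| ≤ ∫ ρ in (0 : ℝ)..1,
      (2 * C + 8 * C * (a * ρ * (1 + a * (1 - ρ ^ 2)) ^ (-(3 / 2) : ℝ)) +
        8 * C * (b * ρ * (1 + b * (1 - ρ ^ 2)) ^ (-(3 / 2) : ℝ))) := by
    apply intervalIntegral.integral_mono_on_of_le_Ioo (by norm_num)
    · apply Continuous.intervalIntegrable
      fun_prop
    · exact (intervalIntegrable_const.add ((hFi a ha).const_mul _)).add ((hFi b hb).const_mul _)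
    · exact hbd
  refine le_trans hmono ?_
  rw [intervalIntegral.integral_add (intervalIntegrable_const.add ((hFi a ha).const_mul _))
      ((hFi b hb).const_mul _),
    intervalIntegral.integral_add intervalIntegrable_const ((hFi a ha).const_mul _)]
  have v1 := mul_le_mul_of_nonneg_left (hFv a ha) (by positivity : (0 : ℝ) ≤ 8 * C)
  have v2 := mul_le_mul_of_nonneg_left (hFv b hb) (by positivity : (0 : ℝ) ≤ 8 * C)
  have i1 := intervalIntegral.integral_const_mul (μ := volume) (a := (0 : ℝ)) (b := 1) (8 * C)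
    (fun ρ : ℝ => a * ρ * (1 + a * (1 - ρ ^ 2)) ^ (-(3 / 2) : ℝ))
  have i2 := intervalIntegral.integral_const_mul (μ := volume) (a := (0 : ℝ)) (b := 1) (8 * C)
    (fun ρ : ℝ => b * ρ * (1 + b * (1 - ρ ^ 2)) ^ (-(3 / 2) : ℝ))
  rw [i1, i2]
  simp only [intervalIntegral.integral_const, sub_zero, one_smul]
  linarith

theorem MSB (hA : PKA_stmt) (hMSA : MSA_stmt) (hMSC : MSC_stmt) (hPHI : PHI_stmt) : MSB_stmt := by
  obtain ⟨C, hC, hTh⟩ := hMSC
  refine ⟨18 * C, by positivity, fun ka K => ⟨MSB_prof hA ka K, ?_⟩⟩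
  rcases le_total ka K with h | h
  · unfold Ms
    exact MSB_main C hC hTh _ (hPHI _ (MSB_prof hA ka K)).2.1 (2 ^ ka) (2 ^ K) (by positivity)
      (by positivity) (fun ρ h0 h1 => hMSA ka K ρ h h0 h1)
  · have he : gs ka K = gs ka ka := by
      funext a
      simp [gs, Finset.Ico_eq_empty_of_le h]
    rw [he]
    unfold Ms
    exact MSB_main C hC hTh _ (hPHI _ (MSB_prof hA ka ka)).2.1 (2 ^ ka) (2 ^ ka) (by positivity)
      (by positivity) (fun ρ h0 h1 => hMSA ka ka ρ le_rfl h0 h1)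

end SF
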